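import Pool.Agent.K1H19.DLV2.Box

set_option autoImplicit false

/-!
The box: bound for almost every `α`.
-/

namespace Pool.Agent.K1H19.DLV2

open MeasureTheory Set Filter Topology
open scoped ENNReal
open Complex (I)
open Pool.Agent.Y969.GP (ff)
open Pool.Agent.K1H51.DL

noncomputable section

variable {K : ℕ}

lemma lint_Zf {F : ℝ → ℂ} (hF : Measurable F) {a b ε C P Q N : ℝ} {M : ℕ} (ha : 0 < a)
    (hP : 1 ≤ P) (hM : 0 < M) (hC : 0 < C) (hε : 0 ≤ ε) (hQ : 0 ≤ Q)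
    (h2 : IntegrableOn (fun t => ‖F t‖ ^ 2) (Icc P (2 * P)))
    (v1 : ∀ t : ℝ, 1 ≤ t → ∫ α in Bxx K a b, dP α t ^ 2 ≤ C * t ^ ε)
    (v2 : ∀ S : ℝ, P ≤ S → S ≤ 2 * P →
      ∫ α in Bxx K a b, ‖∫ t in P..S, F t * (dP α t : ℂ)‖ ^ 2 ≤ Q)
    (hN : ∫ t in P..(2 * P), ‖F t‖ ^ 2 ≤ N) :
    ∫⁻ α in Bxx K a b, Zf F P M α ≤
      ENNReal.ofReal (2 * ((M + 1) * Q) + 2 * (P / M) * (N * (C * (2 * P) ^ ε))) := by
  have hP0 : 0 < P := by linarith
  have hM' : (0 : ℝ) < M := by exact_mod_cast hM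
  have hN0 : 0 ≤ N := le_trans (intervalIntegral.integral_nonneg (by linarith)
    fun t _ => by positivity) hN
  unfold Zf
  have hmz : Measurable fun α : Fin K → ℝ =>
      ∫⁻ t in Icc P (2 * P), ENNReal.ofReal (‖F t‖ ^ 2 * dP α t ^ 2) :=
    Measurable.lintegral_prod_right' (Zf_lmeas hF)
  rw [lintegral_add_left ((Finset.measurable_sum _ fun m _ =>
      ((int_meas hF _ _).norm.pow_const 2).ennreal_ofReal).const_mul _),
    lintegral_const_mul _ (Finset.measurable_sum _ fun m _ =>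
      ((int_meas hF _ _).norm.pow_const 2).ennreal_ofReal),
    lintegral_const_mul _ hmz,
    lintegral_finsetSum _ (fun m _ => ((int_meas hF _ _).norm.pow_const 2).ennreal_ofReal)]
  have e0 : ENNReal.ofReal (2 * ((M + 1) * Q) + 2 * (P / M) * (N * (C * (2 * P) ^ ε))) =
      2 * ENNReal.ofReal ((M + 1) * Q) +
        2 * ENNReal.ofReal (P / M) * ENNReal.ofReal (N * (C * (2 * P) ^ ε)) := by
    rw [ENNReal.ofReal_add (by positivity) (by positivity),
      ENNReal.ofReal_mul (p := 2) (q := (M + 1) * Q) (by norm_num),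
      ENNReal.ofReal_mul (p := 2 * (P / M)) (by positivity),
      ENNReal.ofReal_mul (p := 2) (q := P / M) (by norm_num),
      show ENNReal.ofReal 2 = 2 by simp]
  rw [e0]
  refine add_le_add (mul_le_mul_right ?_ 2) (mul_le_mul_right ?_ _)
  · calc ∑ m ∈ Finset.range (M + 1), ∫⁻ α in Bxx K a b,
          ENNReal.ofReal (‖∫ t in P..(P + m * (P / M)), F t * (dP α t : ℂ)‖ ^ 2)
        ≤ ∑ m ∈ Finset.range (M + 1), ENNReal.ofReal Q := by
          refine Finset.sum_le_sum fun m hm => ?_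
          have hm1 : (m : ℝ) ≤ M := by
            exact_mod_cast Nat.lt_succ_iff.1 (Finset.mem_range.1 hm)
          have h3 : (m : ℝ) * (P / M) ≤ P := by
            calc (m : ℝ) * (P / M) ≤ M * (P / M) := by gcongr
              _ = P := by field_simp
          have h4 : 0 ≤ (m : ℝ) * (P / M) := by positivity
          exact lint2 hF ha hP (by linarith) (by linarith) h2
            (v2 _ (by linarith) (by linarith))
      _ = ENNReal.ofReal ((M + 1) * Q) := by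
          rw [Finset.sum_const, Finset.card_range, nsmul_eq_mul,
            ENNReal.ofReal_mul (by positivity)]
          congr 1
          rw [show ((M : ℝ) + 1) = ((M + 1 : ℕ) : ℝ) by push_cast; ring, ENNReal.ofReal_natCast]
  · have hsw : ∫⁻ α in Bxx K a b, ∫⁻ t in Icc P (2 * P),
        ENNReal.ofReal (‖F t‖ ^ 2 * dP α t ^ 2) =
        ∫⁻ t in Icc P (2 * P), ∫⁻ α in Bxx K a b, ENNReal.ofReal (‖F t‖ ^ 2 * dP α t ^ 2) :=
      lintegral_lintegral_swap (Zf_lmeas hF).aemeasurable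
    rw [hsw]
    calc ∫⁻ t in Icc P (2 * P), ∫⁻ α in Bxx K a b, ENNReal.ofReal (‖F t‖ ^ 2 * dP α t ^ 2)
        ≤ ∫⁻ t in Icc P (2 * P), ENNReal.ofReal (‖F t‖ ^ 2) *
            ENNReal.ofReal (C * (2 * P) ^ ε) := by
          refine setLIntegral_mono' measurableSet_Icc fun t ht => ?_
          have h5 : ∀ α : Fin K → ℝ, ENNReal.ofReal (‖F t‖ ^ 2 * dP α t ^ 2) =
              ENNReal.ofReal (‖F t‖ ^ 2) * ENNReal.ofReal (dP α t ^ 2) := fun α =>
            ENNReal.ofReal_mul (by positivity)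
          simp_rw [h5]
          rw [lintegral_const_mul _ ((dP_meas1 t).pow_const 2).ennreal_ofReal]
          refine mul_le_mul_right ?_ _
          refine (lint1 ha (hP.trans ht.1) (v1 t (hP.trans ht.1))).trans
            (ENNReal.ofReal_le_ofReal ?_)
          have : t ^ ε ≤ (2 * P) ^ ε := Real.rpow_le_rpow (by linarith [ht.1]) ht.2 hε
          exact mul_le_mul_of_nonneg_left this hC.le
      _ = (∫⁻ t in Icc P (2 * P), ENNReal.ofReal (‖F t‖ ^ 2)) *
            ENNReal.ofReal (C * (2 * P) ^ ε) :=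
          lintegral_mul_const _ (hF.norm.pow_const 2).ennreal_ofReal
      _ ≤ ENNReal.ofReal N * ENNReal.ofReal (C * (2 * P) ^ ε) := by
          refine mul_le_mul_left ?_ _
          rw [← ofReal_integral_eq_lintegral_ofReal h2 (ae_of_all _ fun _ => by positivity)]
          refine ENNReal.ofReal_le_ofReal ?_
          rw [integral_Icc_eq_integral_Ioc, ← intervalIntegral.integral_of_le (by linarith)]
          exact hN
      _ = ENNReal.ofReal (N * (C * (2 * P) ^ ε)) := (ENNReal.ofReal_mul hN0).symm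

/-- almost every `α` of the box -/
lemma ae_box {F : ℝ → ℂ} (hF : Measurable F) {a b ε C B δ δ₀ κ : ℝ} (ha : 0 < a)
    (hC : 0 < C) (hε : 0 ≤ ε) (hε1 : ε ≤ 1) (hδ₀ : 0 < δ₀)
    (hκ : 0 < κ) (hB : 0 ≤ B)
    (hint : ∀ P : ℝ, 1 ≤ P → IntegrableOn (fun t => ‖F t‖ ^ 2) (Icc P (2 * P)))
    (hN : ∀ P : ℝ, 1 ≤ P → ∫ t in P..(2 * P), ‖F t‖ ^ 2 ≤ B * P ^ (1 + δ))
    (v1 : ∀ t : ℝ, 1 ≤ t → ∫ α in Bxx K a b, dP α t ^ 2 ≤ C * t ^ ε)
    (v2 : ∀ P S : ℝ, 1 ≤ P → P ≤ S → S ≤ 2 * P →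
      ∫ α in Bxx K a b, ‖∫ t in P..S, F t * (dP α t : ℂ)‖ ^ 2 ≤
        C * P ^ (1 - 2 * δ₀ + ε) * ∫ t in P..(2 * P), ‖F t‖ ^ 2) :
    ∀ᵐ α ∂(volume.restrict (Bxx K a b)), ∃ c : ℝ, 0 ≤ c ∧ ∀ i : ℕ,
      ∀ T ∈ Icc ((2 : ℝ) ^ i) (2 * 2 ^ i),
        ‖∫ t in ((2 : ℝ) ^ i)..T, F t * (dP α t : ℂ)‖ ^ 2 ≤
          c * ((2 : ℝ) ^ i) ^ (2 - δ₀ + ε + δ + κ) := by
  set P : ℕ → ℝ := fun i => (2 : ℝ) ^ i with hPdef
  have hP1 : ∀ i, 1 ≤ P i := fun i => one_le_pow₀ (by norm_num)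
  have hP0 : ∀ i, 0 < P i := fun i => lt_of_lt_of_le one_pos (hP1 i)
  set M : ℕ → ℕ := fun i => ⌈P i ^ δ₀⌉₊ with hMdef
  have hPd : ∀ i, 1 ≤ P i ^ δ₀ := fun i => Real.one_le_rpow (hP1 i) hδ₀.le
  have hM0 : ∀ i, 0 < M i := fun i => Nat.ceil_pos.2 (lt_of_lt_of_le one_pos (hPd i))
  have hM1 : ∀ i, P i ^ δ₀ ≤ M i := fun i => Nat.le_ceil _
  have hM2 : ∀ i, (M i : ℝ) + 1 ≤ 3 * P i ^ δ₀ := fun i => by
    have := Nat.ceil_lt_add_one (show 0 ≤ P i ^ δ₀ by linarith [hPd i])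
    have h3 := hPd i
    have h4 : (M i : ℝ) < P i ^ δ₀ + 1 := this
    linarith
  set e : ℝ := 2 - δ₀ + ε + δ with he
  -- the expectation
  have hE : ∀ i, ∫⁻ α in Bxx K a b, Zf F (P i) (M i) α ≤
      ENNReal.ofReal (10 * C * B * P i ^ e) := fun i => by
    refine (lint_Zf hF (Q := C * P i ^ (1 - 2 * δ₀ + ε) * (B * P i ^ (1 + δ))) ha (hP1 i) (hM0 i)
      hC hε ?_ (hint _ (hP1 i)) v1 ?_ (hN _ (hP1 i))).trans (ENNReal.ofReal_le_ofReal ?_)
    · have := hP0 i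
      positivity
    · intro S h1 h2
      refine (v2 _ S (hP1 i) h1 h2).trans ?_
      have := hP0 i
      exact mul_le_mul_of_nonneg_left (hN _ (hP1 i)) (by positivity)
    · have hp := hP0 i
      have q1 : (2 * P i) ^ ε ≤ 2 * P i ^ ε := by
        rw [Real.mul_rpow (by norm_num) hp.le]
        have : (2 : ℝ) ^ ε ≤ 2 ^ (1 : ℝ) := Real.rpow_le_rpow_of_exponent_le (by norm_num) hε1
        rw [Real.rpow_one] at this
        exact mul_le_mul_of_nonneg_right this (by positivity)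
      have q2 : P i / M i ≤ P i ^ (1 - δ₀) := by
        rw [Real.rpow_sub hp, Real.rpow_one]
        exact div_le_div_of_nonneg_left hp.le (by positivity) (hM1 i)
      have q3 : P i ^ δ₀ * (P i ^ (1 - 2 * δ₀ + ε) * P i ^ (1 + δ)) = P i ^ e := by
        rw [← Real.rpow_add hp, ← Real.rpow_add hp]; congr 1; rw [he]; ring
      have q4 : P i ^ (1 - δ₀) * (P i ^ (1 + δ) * P i ^ ε) = P i ^ e := by
        rw [← Real.rpow_add hp, ← Real.rpow_add hp]; congr 1; rw [he]; ring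
      have t1 : 2 * (((M i : ℝ) + 1) * (C * P i ^ (1 - 2 * δ₀ + ε) * (B * P i ^ (1 + δ)))) ≤
          6 * C * B * P i ^ e := by
        calc 2 * (((M i : ℝ) + 1) * (C * P i ^ (1 - 2 * δ₀ + ε) * (B * P i ^ (1 + δ))))
            ≤ 2 * ((3 * P i ^ δ₀) * (C * P i ^ (1 - 2 * δ₀ + ε) * (B * P i ^ (1 + δ)))) := by
              refine mul_le_mul_of_nonneg_left ?_ (by norm_num)
              exact mul_le_mul_of_nonneg_right (hM2 i) (by positivity)
          _ = 6 * C * B * (P i ^ δ₀ * (P i ^ (1 - 2 * δ₀ + ε) * P i ^ (1 + δ))) := by ring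
          _ = _ := by rw [q3]
      have t2 : 2 * (P i / M i) * (B * P i ^ (1 + δ) * (C * (2 * P i) ^ ε)) ≤
          4 * C * B * P i ^ e := by
        calc 2 * (P i / M i) * (B * P i ^ (1 + δ) * (C * (2 * P i) ^ ε))
            ≤ 2 * P i ^ (1 - δ₀) * (B * P i ^ (1 + δ) * (C * (2 * P i ^ ε))) := by
              gcongr
          _ = 4 * C * B * (P i ^ (1 - δ₀) * (P i ^ (1 + δ) * P i ^ ε)) := by ring
          _ = _ := by rw [q4]
      linarith
  -- summation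
  have hw : ∀ i, 0 ≤ P i ^ (-(e + κ)) := fun i => Real.rpow_nonneg (hP0 i).le _
  have hsum : ∫⁻ α in Bxx K a b, ∑' i, ENNReal.ofReal (P i ^ (-(e + κ))) * Zf F (P i) (M i) α <
      ⊤ := by
    rw [lintegral_tsum fun i => ((Zf_meas hF _ _).const_mul _).aemeasurable]
    have hr : (2 : ℝ) ^ (-κ) < 1 := Real.rpow_lt_one_of_one_lt_of_neg (by norm_num) (by linarith)
    have hr0 : 0 ≤ (2 : ℝ) ^ (-κ) := by positivity
    calc ∑' i, ∫⁻ α in Bxx K a b, ENNReal.ofReal (P i ^ (-(e + κ))) * Zf F (P i) (M i) α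
        ≤ ∑' i : ℕ, ENNReal.ofReal (10 * C * B * ((2 : ℝ) ^ (-κ)) ^ i) := by
          refine ENNReal.tsum_le_tsum fun i => ?_
          rw [lintegral_const_mul _ (Zf_meas hF _ _)]
          refine (mul_le_mul_right (hE i) _).trans ?_
          rw [← ENNReal.ofReal_mul (hw i)]
          refine ENNReal.ofReal_le_ofReal (le_of_eq ?_)
          have h6 : P i ^ (-(e + κ)) * P i ^ e = ((2 : ℝ) ^ (-κ)) ^ i := by
            rw [← Real.rpow_add (hP0 i), show -(e + κ) + e = -κ by ring, hPdef]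
            simp only
            rw [← Real.rpow_natCast, ← Real.rpow_natCast, ← Real.rpow_mul (by norm_num),
              ← Real.rpow_mul (by norm_num), mul_comm]
          rw [← h6]; ring
      _ < ⊤ := by
          have hs : Summable fun i : ℕ => 10 * C * B * ((2 : ℝ) ^ (-κ)) ^ i :=
            (summable_geometric_of_lt_one hr0 hr).mul_left _
          rw [← ENNReal.ofReal_tsum_of_nonneg (fun i => by positivity) hs]
          exact ENNReal.ofReal_lt_top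
  have hae := ae_lt_top (Measurable.tsum fun i =>
    ((Zf_meas (K := K) hF (P i) (M i)).const_mul (ENNReal.ofReal (P i ^ (-(e + κ)))))) hsum.ne
  have hbox : ∀ᵐ α ∂(volume.restrict (Bxx K a b)), α ∈ Bxx K a b :=
    ae_restrict_mem measurableSet_Icc
  filter_upwards [hae, hbox] with α h1 hα
  set c : ℝ≥0∞ := ∑' i, ENNReal.ofReal (P i ^ (-(e + κ))) * Zf F (P i) (M i) α with hc
  refine ⟨c.toReal, ENNReal.toReal_nonneg, fun i T hT => ?_⟩
  have h3 := Zf_le hF ha (hP0 i) (hM0 i) (hint _ (hP1 i)) hα hT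
  have h4 : ENNReal.ofReal (P i ^ (-(e + κ))) * Zf F (P i) (M i) α ≤ c := ENNReal.le_tsum i
  have h5 : ENNReal.ofReal (P i ^ (-(e + κ)) * ‖∫ t in (P i)..T, F t * (dP α t : ℂ)‖ ^ 2) ≤ c := by
    rw [ENNReal.ofReal_mul (hw i)]
    exact (mul_le_mul_right h3 _).trans h4
  have h6 := ENNReal.toReal_mono h1.ne h5
  rw [ENNReal.toReal_ofReal (mul_nonneg (hw i) (by positivity))] at h6
  have h7 : ‖∫ t in (P i)..T, F t * (dP α t : ℂ)‖ ^ 2 =
      (P i ^ (-(e + κ)) * ‖∫ t in (P i)..T, F t * (dP α t : ℂ)‖ ^ 2) * P i ^ (e + κ) := by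
    rw [mul_right_comm, ← Real.rpow_add (hP0 i)]
    simp
  rw [h7]
  exact mul_le_mul_of_nonneg_right h6 (Real.rpow_nonneg (hP0 i).le _)

end

end Pool.Agent.K1H19.DLV2
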