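import Pool.Agent.K1H51.DL.Stm

set_option autoImplicit false

/-!
Basic facts for the passage from `S_VAR` to `S_FIN` (project DL of helper51).
-/

namespace Pool.Agent.K1H19.DLV2

open MeasureTheory Set Filter Topology
open Complex (I)
open Pool.Agent.Y969.GP (ff)
open Pool.Agent.K1H51.DL

noncomputable section

lemma ff_cont : Continuous ff := by
  have h : Continuous fun u : ℝ => riemannZeta (1 / 2 + I * u) := by
    rw [continuous_iff_continuousAt]
    intro u
    have h1 : (1 / 2 + I * (u : ℂ)) ≠ 1 := by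
      intro h
      have := congrArg Complex.re h
      simp at this
    exact ContinuousAt.comp (f := fun u : ℝ => (1 / 2 + I * (u : ℂ)))
      (differentiableAt_riemannZeta h1).continuousAt (by fun_prop)
  exact (h.norm).pow 2

lemma ff_neg (u : ℝ) : ff (-u) = ff u := by
  unfold ff
  have h : (1 / 2 + I * ((-u : ℝ) : ℂ)) = (starRingEnd ℂ) (1 / 2 + I * (u : ℂ)) := by
    apply Complex.ext <;> simp
  rw [h, riemannZeta_conj, RCLike.norm_conj]

lemma ff_abs (u : ℝ) : ff |u| = ff u := by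
  rcases abs_choice u with h | h <;> rw [h]
  exact ff_neg u

lemma ff_nonneg (u : ℝ) : 0 ≤ ff u := by unfold ff; positivity

lemma Mz_meas : Measurable Mz := by
  unfold Mz
  exact (Real.measurable_log.comp (measurable_id.div_const _)).add_const _

lemma Mz_contAt {u : ℝ} (hu : 0 < u) : ContinuousAt Mz u := by
  unfold Mz
  have h : u / (2 * Real.pi) ≠ 0 := by positivity
  exact ((Real.continuousAt_log h).comp (f := fun u : ℝ => u / (2 * Real.pi)) (by fun_prop)).add
    continuousAt_const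

variable {K : ℕ}

lemma dP_meas : Measurable (fun p : (Fin K → ℝ) × ℝ => dP p.1 p.2) := by
  unfold dP
  have h : ∀ j : Fin K, Measurable fun p : (Fin K → ℝ) × ℝ => p.1 j * p.2 := fun j => by fun_prop
  exact (Finset.measurable_prod _ fun j _ => ff_cont.measurable.comp (h j)).sub
    (Finset.measurable_prod _ fun j _ => Mz_meas.comp (h j))

lemma dP_meas1 (t : ℝ) : Measurable (fun α : Fin K → ℝ => dP α t) :=
  Measurable.comp (g := fun p : (Fin K → ℝ) × ℝ => dP p.1 p.2) (f := fun α : Fin K → ℝ => (α, t))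
    dP_meas measurable_prodMk_right

lemma dP_meas2 (α : Fin K → ℝ) : Measurable (fun t : ℝ => dP α t) :=
  Measurable.comp (g := fun p : (Fin K → ℝ) × ℝ => dP p.1 p.2) (f := fun t : ℝ => (α, t))
    dP_meas measurable_prodMk_left

lemma dP_contAt (p : (Fin K → ℝ) × ℝ) (h1 : ∀ j, 0 < p.1 j) (h2 : 0 < p.2) :
    ContinuousAt (fun p : (Fin K → ℝ) × ℝ => dP p.1 p.2) p := by
  unfold dP
  have h : ∀ j : Fin K, Continuous fun p : (Fin K → ℝ) × ℝ => p.1 j * p.2 := fun j => by fun_prop
  refine ContinuousAt.sub ?_ ?_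
  · exact tendsto_finsetProd _ fun j _ => (ff_cont.comp (h j)).continuousAt
  · exact tendsto_finsetProd _ fun j _ =>
      ContinuousAt.comp (f := fun p : (Fin K → ℝ) × ℝ => p.1 j * p.2)
        (Mz_contAt (mul_pos (h1 j) h2)) (h j).continuousAt

/-- the box -/
abbrev Bxx (K : ℕ) (a b : ℝ) : Set (Fin K → ℝ) := Icc (fun _ => a) (fun _ => b)

lemma dP_bdd {a b T S : ℝ} (ha : 0 < a) (hT : 0 < T) :
    ∃ M : ℝ, ∀ α ∈ Bxx K a b, ∀ t ∈ Icc T S, |dP α t| ≤ M := by
  have hc : IsCompact ((Bxx K a b) ×ˢ Icc T S) := isCompact_Icc.prod isCompact_Icc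
  have hcont : ContinuousOn (fun p : (Fin K → ℝ) × ℝ => dP p.1 p.2) ((Bxx K a b) ×ˢ Icc T S) := by
    intro p hp
    refine (dP_contAt p (fun j => ?_) ?_).continuousWithinAt
    · exact lt_of_lt_of_le ha (hp.1.1 j)
    · exact lt_of_lt_of_le hT hp.2.1
  obtain ⟨M, hM⟩ := hc.exists_bound_of_continuousOn hcont
  exact ⟨M, fun α hα t ht => hM (α, t) ⟨hα, ht⟩⟩

/-- Cauchy-Schwarz for an interval integral -/
lemma cs_int {g : ℝ → ℂ} {s T : ℝ} (hsT : s ≤ T) (h1 : IntegrableOn g (Ioc s T))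
    (h2 : IntegrableOn (fun t => ‖g t‖ ^ 2) (Ioc s T)) :
    ‖∫ t in s..T, g t‖ ^ 2 ≤ (T - s) * ∫ t in Ioc s T, ‖g t‖ ^ 2 := by
  have hle : ‖∫ t in s..T, g t‖ ≤ ∫ t in Ioc s T, ‖g t‖ := by
    rw [intervalIntegral.integral_of_le hsT]
    exact norm_integral_le_integral_norm _
  have hnn : 0 ≤ ∫ t in Ioc s T, ‖g t‖ := integral_nonneg fun t => norm_nonneg _
  refine (pow_le_pow_left₀ (norm_nonneg _) hle 2).trans ?_
  rcases hsT.eq_or_lt with rfl | hlt
  · simp
  set J := ∫ t in Ioc s T, ‖g t‖ with hJ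
  set Q := ∫ t in Ioc s T, ‖g t‖ ^ 2 with hQ
  set c := J / (T - s) with hc
  have hpos : 0 < T - s := by linarith
  have hvol : (volume.restrict (Ioc s T)).real univ = T - s := by
    simp [measureReal_def, hsT]
  have key : 0 ≤ ∫ t in Ioc s T, (‖g t‖ - c) ^ 2 := integral_nonneg fun t => sq_nonneg _
  have e1 : ∫ t in Ioc s T, (‖g t‖ - c) ^ 2 = Q - 2 * c * J + c ^ 2 * (T - s) := by
    have : ∀ t, (‖g t‖ - c) ^ 2 = (‖g t‖ ^ 2 - (2 * c) * ‖g t‖) + c ^ 2 := fun t => by ring
    simp_rw [this]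
    rw [integral_add, integral_sub, integral_const_mul, integral_const, hvol, smul_eq_mul, ← hJ,
      ← hQ]
    · ring
    · exact h2
    · exact h1.norm.const_mul _
    · exact h2.sub (h1.norm.const_mul _)
    · exact integrable_const _
  rw [e1] at key
  have e2 : c * (T - s) = J := by rw [hc]; field_simp
  have e3 : Q - 2 * c * J + c ^ 2 * (T - s) = Q - c * J := by
    have : c ^ 2 * (T - s) = c * (c * (T - s)) := by ring
    rw [this, e2]; ring
  rw [e3] at key
  have : J ^ 2 = (T - s) * (c * J) := by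
    calc J ^ 2 = (c * (T - s)) * J := by rw [e2]; ring
      _ = (T - s) * (c * J) := by ring
  rw [this]
  exact mul_le_mul_of_nonneg_left (by linarith) hpos.le

end

end Pool.Agent.K1H19.DLV2
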