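import Pool.Agent.K1H19.DLV2.Bas

set_option autoImplicit false

/-!
The box: from `S_VAR` to a bound for almost every `α` of a box.
-/

namespace Pool.Agent.K1H19.DLV2

open MeasureTheory Set Filter Topology
open scoped ENNReal
open Complex (I)
open Pool.Agent.Y969.GP (ff)
open Pool.Agent.K1H51.DL

noncomputable section

variable {K : ℕ}

instance (a b : ℝ) : IsFiniteMeasure ((volume : Measure (Fin K → ℝ)).restrict (Bxx K a b)) :=
  ⟨by rw [Measure.restrict_apply_univ]; exact isCompact_Icc.measure_lt_top⟩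

lemma int_meas {F : ℝ → ℂ} (hF : Measurable F) (T S : ℝ) :
    Measurable fun α : Fin K → ℝ => ∫ t in T..S, F t * (dP α t : ℂ) := by
  have hm : Measurable fun p : (Fin K → ℝ) × ℝ => F p.2 * (dP p.1 p.2 : ℂ) :=
    (hF.comp measurable_snd).mul (Complex.measurable_ofReal.comp dP_meas)
  have h1 : ∀ s : Set ℝ, Measurable fun α : Fin K → ℝ => ∫ t in s, F t * (dP α t : ℂ) := fun s =>
    (StronglyMeasurable.integral_prod_right' (ν := volume.restrict s)
      hm.stronglyMeasurable).measurable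
  unfold intervalIntegral
  exact (h1 _).sub (h1 _)

/-- integrability on intervals -/
lemma int_on {F : ℝ → ℂ} (hF : Measurable F) {a b T S : ℝ} (ha : 0 < a) (hT : 0 < T)
    (h2 : IntegrableOn (fun t => ‖F t‖ ^ 2) (Icc T S)) {α : Fin K → ℝ} (hα : α ∈ Bxx K a b) :
    IntegrableOn (fun t => F t * (dP α t : ℂ)) (Icc T S) ∧
    IntegrableOn (fun t => ‖F t * (dP α t : ℂ)‖ ^ 2) (Icc T S) := by
  obtain ⟨M, hM⟩ := dP_bdd (K := K) (a := a) (b := b) (T := T) (S := S) ha hT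
  have hdm : Measurable fun t : ℝ => dP α t := dP_meas2 α
  have hm : Measurable fun t : ℝ => F t * (dP α t : ℂ) :=
    hF.mul (Complex.measurable_ofReal.comp hdm)
  have hb : ∀ᵐ t ∂volume.restrict (Icc T S), |dP α t| ≤ M :=
    (ae_restrict_iff' measurableSet_Icc).2 (ae_of_all _ fun t ht => hM α hα t ht)
  have hF1 : Integrable F (volume.restrict (Icc T S)) := by
    have h3 : Integrable (fun t => 1 + ‖F t‖ ^ 2) (volume.restrict (Icc T S)) :=
      (integrable_const _).add h2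
    refine h3.mono' hF.aestronglyMeasurable (ae_of_all _ fun t => ?_)
    nlinarith [sq_nonneg (‖F t‖ - 1)]
  constructor
  · refine (hF1.norm.mul_const M).mono' hm.aestronglyMeasurable ?_
    filter_upwards [hb] with t ht
    rw [norm_mul, Complex.norm_real, Real.norm_eq_abs]
    exact mul_le_mul_of_nonneg_left ht (norm_nonneg _)
  · refine (Integrable.mul_const h2 (M ^ 2)).mono' (hm.norm.pow_const 2).aestronglyMeasurable ?_
    filter_upwards [hb] with t ht
    rw [norm_pow, norm_norm, norm_mul, mul_pow, Complex.norm_real, Real.norm_eq_abs]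
    exact mul_le_mul_of_nonneg_left (pow_le_pow_left₀ (abs_nonneg _) ht 2) (by positivity)

lemma lint1 {a b C ε t : ℝ} (ha : 0 < a) (ht : 1 ≤ t)
    (h : ∫ α in Bxx K a b, dP α t ^ 2 ≤ C * t ^ ε) :
    ∫⁻ α in Bxx K a b, ENNReal.ofReal (dP α t ^ 2) ≤ ENNReal.ofReal (C * t ^ ε) := by
  obtain ⟨M, hM⟩ := dP_bdd (K := K) (a := a) (b := b) (T := t) (S := t) ha (by linarith)
  have hdm : Measurable fun α : Fin K → ℝ => dP α t := dP_meas1 t
  have hi : Integrable (fun α : Fin K → ℝ => dP α t ^ 2) (volume.restrict (Bxx K a b)) := by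
    refine (integrable_const (M ^ 2)).mono' (hdm.pow_const 2).aestronglyMeasurable ?_
    refine (ae_restrict_iff' measurableSet_Icc).2 (ae_of_all _ fun α hα => ?_)
    rw [norm_pow, Real.norm_eq_abs]
    exact pow_le_pow_left₀ (abs_nonneg _) (hM α hα t ⟨le_rfl, le_rfl⟩) 2
  rw [← ofReal_integral_eq_lintegral_ofReal hi (ae_of_all _ fun _ => sq_nonneg _)]
  exact ENNReal.ofReal_le_ofReal h

lemma lint2 {F : ℝ → ℂ} (hF : Measurable F) {a b T S Q : ℝ} (ha : 0 < a) (hT : 1 ≤ T)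
    (hTS : T ≤ S) (hS : S ≤ 2 * T) (h2 : IntegrableOn (fun t => ‖F t‖ ^ 2) (Icc T (2 * T)))
    (h : ∫ α in Bxx K a b, ‖∫ t in T..S, F t * (dP α t : ℂ)‖ ^ 2 ≤ Q) :
    ∫⁻ α in Bxx K a b, ENNReal.ofReal (‖∫ t in T..S, F t * (dP α t : ℂ)‖ ^ 2) ≤
      ENNReal.ofReal Q := by
  have hT0 : 0 < T := by linarith
  obtain ⟨M, hM⟩ := dP_bdd (K := K) (a := a) (b := b) (T := T) (S := 2 * T) ha hT0
  have hF1 : Integrable F (volume.restrict (Icc T (2 * T))) := by
    have h3 : Integrable (fun t => 1 + ‖F t‖ ^ 2) (volume.restrict (Icc T (2 * T))) :=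
      (integrable_const _).add h2
    refine h3.mono' hF.aestronglyMeasurable (ae_of_all _ fun t => ?_)
    nlinarith [sq_nonneg (‖F t‖ - 1)]
  have hi : Integrable (fun α : Fin K → ℝ => ‖∫ t in T..S, F t * (dP α t : ℂ)‖ ^ 2)
      (volume.restrict (Bxx K a b)) := by
    refine (integrable_const (((∫ t in Icc T (2 * T), ‖F t‖) * M) ^ 2)).mono'
      ((int_meas hF T S).norm.pow_const 2).aestronglyMeasurable ?_
    refine (ae_restrict_iff' measurableSet_Icc).2 (ae_of_all _ fun α hα => ?_)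
    rw [norm_pow, norm_norm]
    refine pow_le_pow_left₀ (norm_nonneg _) ?_ 2
    rw [intervalIntegral.integral_of_le hTS]
    have hsub : Ioc T S ⊆ Icc T (2 * T) := fun x hx => ⟨hx.1.le, hx.2.trans hS⟩
    have hi1 : IntegrableOn (fun t => ‖F t‖ * M) (Ioc T S) := (hF1.norm.mul_const M).mono_measure
      (Measure.restrict_mono hsub le_rfl)
    have hM0 : 0 ≤ M := (abs_nonneg _).trans (hM α hα T ⟨le_rfl, by linarith⟩)
    calc ‖∫ t in Ioc T S, F t * (dP α t : ℂ)‖
        ≤ ∫ t in Ioc T S, ‖F t‖ * M := by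
          refine norm_integral_le_of_norm_le hi1 ?_
          refine (ae_restrict_iff' measurableSet_Ioc).2 (ae_of_all _ fun t ht => ?_)
          rw [norm_mul, Complex.norm_real, Real.norm_eq_abs]
          exact mul_le_mul_of_nonneg_left (hM α hα t (hsub ht)) (norm_nonneg _)
      _ ≤ ∫ t in Icc T (2 * T), ‖F t‖ * M :=
          setIntegral_mono_set (hF1.norm.mul_const M) (ae_of_all _ fun t => by positivity)
            hsub.eventuallyLE
      _ = (∫ t in Icc T (2 * T), ‖F t‖) * M := integral_mul_const _ _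
  rw [← ofReal_integral_eq_lintegral_ofReal hi (ae_of_all _ fun _ => by positivity)]
  exact ENNReal.ofReal_le_ofReal h

/-- the majorant of one dyadic block -/
def Zf (F : ℝ → ℂ) (P : ℝ) (M : ℕ) (α : Fin K → ℝ) : ℝ≥0∞ :=
  2 * ∑ m ∈ Finset.range (M + 1),
      ENNReal.ofReal (‖∫ t in P..(P + m * (P / M)), F t * (dP α t : ℂ)‖ ^ 2) +
    2 * ENNReal.ofReal (P / M) * ∫⁻ t in Icc P (2 * P), ENNReal.ofReal (‖F t‖ ^ 2 * dP α t ^ 2)

lemma Zf_lmeas {F : ℝ → ℂ} (hF : Measurable F) :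
    Measurable (fun p : (Fin K → ℝ) × ℝ => ENNReal.ofReal (‖F p.2‖ ^ 2 * dP p.1 p.2 ^ 2)) :=
  (((hF.comp measurable_snd).norm.pow_const 2).mul (dP_meas.pow_const 2)).ennreal_ofReal

lemma Zf_meas {F : ℝ → ℂ} (hF : Measurable F) (P : ℝ) (M : ℕ) :
    Measurable (Zf (K := K) F P M) := by
  unfold Zf
  refine Measurable.add ?_ ?_
  · exact (Finset.measurable_sum _ fun m _ =>
      ((int_meas hF _ _).norm.pow_const 2).ennreal_ofReal).const_mul _
  · exact (Measurable.lintegral_prod_right' (Zf_lmeas hF)).const_mul _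

/-- the majorant dominates all partial integrals of the block -/
lemma Zf_le {F : ℝ → ℂ} (hF : Measurable F) {a b P : ℝ} {M : ℕ} (ha : 0 < a) (hP : 0 < P)
    (hM : 0 < M) (h2 : IntegrableOn (fun t => ‖F t‖ ^ 2) (Icc P (2 * P))) {α : Fin K → ℝ}
    (hα : α ∈ Bxx K a b) {T : ℝ} (hT : T ∈ Icc P (2 * P)) :
    ENNReal.ofReal (‖∫ t in P..T, F t * (dP α t : ℂ)‖ ^ 2) ≤ Zf F P M α := by
  obtain ⟨i1, i2⟩ := int_on hF ha hP h2 hα
  have hM' : (0 : ℝ) < M := by exact_mod_cast hM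
  set h : ℝ := P / M with hh
  have hpos : 0 < h := by positivity
  set m : ℕ := ⌊(T - P) / h⌋₊ with hm
  have hx0 : 0 ≤ (T - P) / h := div_nonneg (by linarith [hT.1]) hpos.le
  have hm1 : (m : ℝ) * h ≤ T - P := by
    have := Nat.floor_le hx0
    rwa [le_div_iff₀ hpos] at this
  have hm2 : T - P < ((m : ℝ) + 1) * h := by
    have := Nat.lt_floor_add_one ((T - P) / h)
    rwa [div_lt_iff₀ hpos] at this
  have hmM : m ≤ M := by
    have h1 : (T - P) / h ≤ M := by
      rw [div_le_iff₀ hpos, hh]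
      have : (M : ℝ) * (P / M) = P := by field_simp
      rw [this]; linarith [hT.2]
    exact_mod_cast (Nat.floor_le hx0).trans h1
  set s : ℝ := P + m * h with hs
  have hPs : P ≤ s := by rw [hs]; nlinarith [Nat.cast_nonneg (α := ℝ) m]
  have hsT : s ≤ T := by rw [hs]; linarith
  have hTs : T - s ≤ h := by rw [hs]; nlinarith
  have sub1 : Ioc P s ⊆ Icc P (2 * P) := fun x hx => ⟨hx.1.le, hx.2.trans (hsT.trans hT.2)⟩
  have sub2 : Ioc s T ⊆ Icc P (2 * P) := fun x hx => ⟨hPs.trans hx.1.le, hx.2.trans hT.2⟩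
  have j1 : IntervalIntegrable (fun t => F t * (dP α t : ℂ)) volume P s :=
    (intervalIntegrable_iff_integrableOn_Ioc_of_le hPs).2 (i1.mono_set sub1)
  have j2 : IntervalIntegrable (fun t => F t * (dP α t : ℂ)) volume s T :=
    (intervalIntegrable_iff_integrableOn_Ioc_of_le hsT).2 (i1.mono_set sub2)
  have e1 : ∫ t in P..T, F t * (dP α t : ℂ) =
      (∫ t in P..s, F t * (dP α t : ℂ)) + ∫ t in s..T, F t * (dP α t : ℂ) :=
    (intervalIntegral.integral_add_adjacent_intervals j1 j2).symm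
  have hcs := cs_int hsT (i1.mono_set sub2) (i2.mono_set sub2)
  have hle2 : ∫ t in Ioc s T, ‖F t * (dP α t : ℂ)‖ ^ 2 ≤
      ∫ t in Icc P (2 * P), ‖F t * (dP α t : ℂ)‖ ^ 2 :=
    setIntegral_mono_set i2 (ae_of_all _ fun t => by positivity) sub2.eventuallyLE
  have hI0 : 0 ≤ ∫ t in Icc P (2 * P), ‖F t * (dP α t : ℂ)‖ ^ 2 :=
    integral_nonneg fun t => by positivity
  have hfin : ‖∫ t in P..T, F t * (dP α t : ℂ)‖ ^ 2 ≤
      2 * ‖∫ t in P..s, F t * (dP α t : ℂ)‖ ^ 2 +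
        2 * h * ∫ t in Icc P (2 * P), ‖F t * (dP α t : ℂ)‖ ^ 2 := by
    rw [e1]
    have h3 := norm_add_le (∫ t in P..s, F t * (dP α t : ℂ)) (∫ t in s..T, F t * (dP α t : ℂ))
    have h4 : ‖∫ t in s..T, F t * (dP α t : ℂ)‖ ^ 2 ≤
        h * ∫ t in Icc P (2 * P), ‖F t * (dP α t : ℂ)‖ ^ 2 := by
      refine hcs.trans ?_
      have h5 : 0 ≤ ∫ t in Ioc s T, ‖F t * (dP α t : ℂ)‖ ^ 2 :=
        integral_nonneg fun t => by positivity
      exact mul_le_mul hTs hle2 h5 hpos.le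
    nlinarith [norm_nonneg ((∫ t in P..s, F t * (dP α t : ℂ)) + ∫ t in s..T, F t * (dP α t : ℂ)),
      sq_nonneg (‖∫ t in P..s, F t * (dP α t : ℂ)‖ - ‖∫ t in s..T, F t * (dP α t : ℂ)‖),
      norm_nonneg (∫ t in P..s, F t * (dP α t : ℂ)), norm_nonneg (∫ t in s..T, F t * (dP α t : ℂ))]
  have e2 : ENNReal.ofReal (∫ t in Icc P (2 * P), ‖F t * (dP α t : ℂ)‖ ^ 2) =
      ∫⁻ t in Icc P (2 * P), ENNReal.ofReal (‖F t‖ ^ 2 * dP α t ^ 2) := by
    rw [ofReal_integral_eq_lintegral_ofReal i2 (ae_of_all _ fun _ => by positivity)]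
    refine lintegral_congr fun t => ?_
    rw [norm_mul, Complex.norm_real, Real.norm_eq_abs, mul_pow, sq_abs]
  refine (ENNReal.ofReal_le_ofReal hfin).trans ?_
  rw [ENNReal.ofReal_add (by positivity) (by positivity), ENNReal.ofReal_mul (by norm_num),
    ENNReal.ofReal_mul (by positivity), ENNReal.ofReal_mul (by norm_num), e2]
  unfold Zf
  rw [show ENNReal.ofReal 2 = 2 by simp]
  refine add_le_add ?_ le_rfl
  refine mul_le_mul_right ?_ 2
  exact Finset.single_le_sum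
    (f := fun m : ℕ => ENNReal.ofReal (‖∫ t in P..(P + m * (P / M)), F t * (dP α t : ℂ)‖ ^ 2))
    (fun _ _ => bot_le) (Finset.mem_range.2 (by omega : m < M + 1))

end

end Pool.Agent.K1H19.DLV2
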