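import Pool.Agent.K1H19.DLV2.AE

set_option autoImplicit false

/-!
`S_FIN` from `S_VAR`.
-/

namespace Pool.Agent.K1H19.DLV2

open MeasureTheory Set Filter Topology
open scoped ENNReal
open Complex (I)
open Pool.Agent.Y969.GP (ff)
open Pool.Agent.K1H51.DL

noncomputable section

variable {K : ℕ}

/-- summation over the dyadic blocks -/
lemma sum_up {g : ℝ → ℂ} {c θ : ℝ} (hc : 0 ≤ c) (hθ : 0 < θ)
    (hg : ∀ T : ℝ, 1 ≤ T → IntegrableOn g (Icc 1 T))
    (h : ∀ i : ℕ, ∀ T ∈ Icc ((2 : ℝ) ^ i) (2 * 2 ^ i),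
        ‖∫ t in ((2 : ℝ) ^ i)..T, g t‖ ^ 2 ≤ c * ((2 : ℝ) ^ i) ^ (2 * θ)) :
    ∃ A : ℝ, 0 ≤ A ∧ ∀ T : ℝ, 1 ≤ T → ‖∫ t in (1 : ℝ)..T, g t‖ ≤ A * T ^ θ := by
  have hii : ∀ s T : ℝ, 1 ≤ s → s ≤ T → IntervalIntegrable g volume s T := fun s T hs hsT =>
    (intervalIntegrable_iff_integrableOn_Ioc_of_le hsT).2
      ((hg T (hs.trans hsT)).mono_set fun x hx => ⟨hs.trans hx.1.le, hx.2⟩)
  set r : ℝ := (2 : ℝ) ^ θ with hr
  have hr1 : 1 < r := Real.one_lt_rpow (by norm_num) hθ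
  have hr0 : 0 < r := by linarith
  have hpow : ∀ i : ℕ, ((2 : ℝ) ^ i) ^ θ = r ^ i := fun i => by
    rw [hr, ← Real.rpow_natCast, ← Real.rpow_natCast, ← Real.rpow_mul (by norm_num),
      ← Real.rpow_mul (by norm_num), mul_comm]
  have h' : ∀ i : ℕ, ∀ T ∈ Icc ((2 : ℝ) ^ i) (2 * 2 ^ i),
      ‖∫ t in ((2 : ℝ) ^ i)..T, g t‖ ≤ √c * r ^ i := by
    intro i T hT
    have h1 := h i T hT
    have h2 : c * ((2 : ℝ) ^ i) ^ (2 * θ) = (√c * r ^ i) ^ 2 := by
      rw [mul_pow, Real.sq_sqrt hc, ← hpow, ← Real.rpow_natCast (((2 : ℝ) ^ i) ^ θ) 2,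
        ← Real.rpow_mul (by positivity)]
      congr 2
      push_cast; ring
    rw [h2] at h1
    exact le_of_sq_le_sq h1 (by positivity)
  set A : ℝ := √c * r / (r - 1) with hA
  have hA0 : 0 ≤ A := div_nonneg (by positivity) (by linarith)
  have hA1 : √c ≤ A := by
    rw [hA, le_div_iff₀ (by linarith)]
    nlinarith [Real.sqrt_nonneg c]
  have hA2 : A + √c * r ≤ A * r := by
    have h3 : A * (r - 1) = √c * r := by
      rw [hA]; field_simp [show r - 1 ≠ 0 by linarith]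
    nlinarith
  have key : ∀ i : ℕ, ∀ T ∈ Icc ((2 : ℝ) ^ i) (2 * 2 ^ i), ‖∫ t in (1 : ℝ)..T, g t‖ ≤ A * r ^ i := by
    intro i
    induction i with
    | zero =>
      intro T hT
      have h4 := h' 0 T hT
      rw [pow_zero, pow_zero, mul_one] at h4
      rw [pow_zero, mul_one]
      exact h4.trans hA1
    | succ i ih =>
      intro T hT
      have e1 : ∫ t in (1 : ℝ)..T, g t =
          (∫ t in (1 : ℝ)..((2 : ℝ) ^ (i + 1)), g t) + ∫ t in ((2 : ℝ) ^ (i + 1))..T, g t :=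
        (intervalIntegral.integral_add_adjacent_intervals
          (hii _ _ le_rfl (one_le_pow₀ (by norm_num)))
          (hii _ _ (one_le_pow₀ (by norm_num)) hT.1)).symm
      have h50 : (0 : ℝ) < 2 ^ i := by positivity
      have h5 := ih ((2 : ℝ) ^ (i + 1)) ⟨by rw [pow_succ]; linarith, by rw [pow_succ, mul_comm]⟩
      have h6 := h' (i + 1) T hT
      rw [e1]
      refine (norm_add_le _ _).trans ?_
      calc _ ≤ A * r ^ i + √c * r ^ (i + 1) := add_le_add h5 h6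
        _ = (A + √c * r) * r ^ i := by ring
        _ ≤ (A * r) * r ^ i := mul_le_mul_of_nonneg_right hA2 (by positivity)
        _ = A * r ^ (i + 1) := by ring
  refine ⟨A, hA0, fun T hT => ?_⟩
  obtain ⟨n, hn1, hn2⟩ := exists_nat_pow_near hT (show (1 : ℝ) < 2 by norm_num)
  refine (key n T ⟨hn1, by rw [pow_succ, mul_comm] at hn2; exact hn2.le⟩).trans ?_
  rw [← hpow]
  exact mul_le_mul_of_nonneg_left (Real.rpow_le_rpow (by positivity) hn1 hθ.le) hA0

lemma Mz_bound {a η : ℝ} (ha : 0 < a) (hη : 0 < η) :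
    ∃ c : ℝ, 0 ≤ c ∧ ∀ t : ℝ, 0 < t → t ≤ 1 → |Mz (a * t)| ≤ c * t ^ (-η) := by
  refine ⟨1 / η + |Real.log (a / (2 * Real.pi)) + 2 * Real.eulerMascheroniConstant|,
    by positivity, fun t h0 h1 => ?_⟩
  have e1 : Mz (a * t) = Real.log t +
      (Real.log (a / (2 * Real.pi)) + 2 * Real.eulerMascheroniConstant) := by
    unfold Mz
    rw [show a * t / (2 * Real.pi) = t * (a / (2 * Real.pi)) by ring,
      Real.log_mul h0.ne' (by positivity)]
    ring
  have h2 : |Real.log t| ≤ 1 / η * t ^ (-η) := by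
    have h3 := (Real.abs_log_mul_self_rpow_lt t η h0 h1 hη).le
    rw [abs_mul, abs_of_pos (Real.rpow_pos_of_pos h0 η)] at h3
    rw [Real.rpow_neg h0.le, ← div_eq_mul_inv, le_div_iff₀ (Real.rpow_pos_of_pos h0 η)]
    exact h3
  have h4 : 1 ≤ t ^ (-η) := Real.one_le_rpow_of_pos_of_le_one_of_nonpos h0 h1 (by linarith)
  rw [e1]
  refine (abs_add_le _ _).trans ?_
  rw [add_mul]
  refine add_le_add h2 ?_
  nlinarith [abs_nonneg (Real.log (a / (2 * Real.pi)) + 2 * Real.eulerMascheroniConstant)]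

lemma prodMz_bound {α : Fin K → ℝ} (hα : ∀ j, 0 < α j) :
    ∃ c : ℝ, 0 ≤ c ∧ ∀ t : ℝ, 0 < t → t ≤ 1 → (∏ j, Mz (α j * t)) ^ 2 ≤ c * t ^ (-(1 / 2) : ℝ) := by
  set η : ℝ := 1 / (4 * (K + 1)) with hη
  have hη0 : 0 < η := by positivity
  choose c hc0 hc using fun j => Mz_bound (hα j) hη0
  refine ⟨(∏ j, c j) ^ 2, by positivity, fun t h0 h1 => ?_⟩
  have h2 : |∏ j, Mz (α j * t)| ≤ (∏ j, c j) * t ^ (-(1 / 4) : ℝ) := by
    rw [Finset.abs_prod]
    calc ∏ j, |Mz (α j * t)| ≤ ∏ j, (c j * t ^ (-η)) :=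
          Finset.prod_le_prod (fun j _ => abs_nonneg _) fun j _ => hc j t h0 h1
      _ = (∏ j, c j) * (t ^ (-η)) ^ K := by
          rw [Finset.prod_mul_distrib, Finset.prod_const, Finset.card_univ, Fintype.card_fin]
      _ ≤ (∏ j, c j) * t ^ (-(1 / 4) : ℝ) := by
          refine mul_le_mul_of_nonneg_left ?_ (Finset.prod_nonneg fun j _ => hc0 j)
          rw [← Real.rpow_natCast, ← Real.rpow_mul h0.le]
          refine Real.rpow_le_rpow_of_exponent_ge h0 h1 ?_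
          have : η * K ≤ 1 / 4 := by
            rw [hη, div_mul_eq_mul_div, one_mul, div_le_div_iff₀ (by positivity) (by norm_num)]
            nlinarith [Nat.cast_nonneg (α := ℝ) K]
          linarith
  calc (∏ j, Mz (α j * t)) ^ 2 = |∏ j, Mz (α j * t)| ^ 2 := (sq_abs _).symm
    _ ≤ ((∏ j, c j) * t ^ (-(1 / 4) : ℝ)) ^ 2 := pow_le_pow_left₀ (abs_nonneg _) h2 2
    _ = (∏ j, c j) ^ 2 * t ^ (-(1 / 2) : ℝ) := by
        rw [mul_pow, ← Real.rpow_natCast (t ^ (-(1 / 4) : ℝ)) 2, ← Real.rpow_mul h0.le]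
        norm_num

lemma int01 {F : ℝ → ℂ} (hF : Measurable F) {α : Fin K → ℝ} (hα : ∀ j, 0 < α j)
    (h2 : IntegrableOn (fun t => ‖F t‖ ^ 2) (Icc 0 1)) :
    IntervalIntegrable (fun t => F t * ((∏ j, Mz (α j * t) : ℝ) : ℂ)) volume 0 1 := by
  obtain ⟨c, hc0, hc⟩ := prodMz_bound hα
  rw [intervalIntegrable_iff_integrableOn_Ioc_of_le zero_le_one]
  have hm : Measurable fun t : ℝ => F t * ((∏ j, Mz (α j * t) : ℝ) : ℂ) :=
    hF.mul (Complex.measurable_ofReal.comp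
      (Finset.measurable_prod _ fun j _ => Mz_meas.comp (measurable_const_mul (α j))))
  have h3 : IntegrableOn (fun t : ℝ => t ^ (-(1 / 2) : ℝ)) (Ioc 0 1) := by
    have := intervalIntegral.intervalIntegrable_rpow' (a := 0) (b := 1) (r := (-(1 / 2) : ℝ))
      (by norm_num)
    rwa [intervalIntegrable_iff_integrableOn_Ioc_of_le zero_le_one] at this
  have h4 : IntegrableOn (fun t => ‖F t‖ ^ 2 + c * t ^ (-(1 / 2) : ℝ)) (Ioc 0 1) :=
    (h2.mono_set Ioc_subset_Icc_self).add (h3.const_mul c)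
  refine Integrable.mono' h4 hm.aestronglyMeasurable ?_
  refine (ae_restrict_iff' measurableSet_Ioc).2 (ae_of_all _ fun t ht => ?_)
  rw [norm_mul, Complex.norm_real, Real.norm_eq_abs]
  have h5 := hc t ht.1 ht.2
  rw [← sq_abs] at h5
  nlinarith [sq_nonneg (‖F t‖ - |∏ j, Mz (α j * t)|), norm_nonneg (F t),
    abs_nonneg (∏ j, Mz (α j * t))]

lemma int_ff {F : ℝ → ℂ} (hF : Measurable F) (α : Fin K → ℝ) {T : ℝ} (hT : 0 ≤ T)
    (h2 : IntegrableOn (fun t => ‖F t‖ ^ 2) (Icc 0 T)) :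
    IntervalIntegrable (fun t => F t * ((∏ j, ff (α j * t) : ℝ) : ℂ)) volume 0 T := by
  have hcont : Continuous fun t : ℝ => ∏ j, ff (α j * t) :=
    continuous_finsetProd _ fun j _ => ff_cont.comp (by fun_prop)
  obtain ⟨M, hM⟩ := (isCompact_Icc (a := (0 : ℝ)) (b := T)).exists_bound_of_continuousOn
    hcont.continuousOn
  rw [intervalIntegrable_iff_integrableOn_Ioc_of_le hT]
  have hF1 : IntegrableOn F (Icc 0 T) := by
    have h3 : Integrable (fun t => 1 + ‖F t‖ ^ 2) (volume.restrict (Icc 0 T)) :=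
      (integrable_const _).add h2
    refine h3.mono' hF.aestronglyMeasurable (ae_of_all _ fun t => ?_)
    nlinarith [sq_nonneg (‖F t‖ - 1)]
  refine Integrable.mono' ((hF1.mono_set Ioc_subset_Icc_self).norm.mul_const M)
    (hF.mul (Complex.measurable_ofReal.comp hcont.measurable)).aestronglyMeasurable ?_
  refine (ae_restrict_iff' measurableSet_Ioc).2 (ae_of_all _ fun t ht => ?_)
  rw [norm_mul, Complex.norm_real]
  exact mul_le_mul_of_nonneg_left (hM t ⟨ht.1.le, ht.2⟩) (norm_nonneg _)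

/-- the good `α` -/
def Gd (F : ℝ → ℂ) (δ : ℝ) (α : Fin K → ℝ) : Prop := ∃ C : ℝ, ∀ T : ℝ, 1 ≤ T →
    ‖(∫ t in (0 : ℝ)..T, F t * ((∏ j, ff (α j * t) : ℝ) : ℂ)) -
      ∫ t in (0 : ℝ)..T, F t * ((∏ j, Mz (|α j| * t) : ℝ) : ℂ)‖ ≤ C * T ^ (1 - δ)

lemma Gd_abs {F : ℝ → ℂ} {δ : ℝ} {α β : Fin K → ℝ} (h : ∀ j, |α j| = |β j|) (hβ : Gd F δ β) :
    Gd F δ α := by
  obtain ⟨C, hC⟩ := hβ
  refine ⟨C, fun T hT => ?_⟩
  have h1 : ∀ (j : Fin K) (t : ℝ), ff (α j * t) = ff (β j * t) := fun j t => by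
    rcases abs_eq_abs.1 (h j) with h3 | h3
    · rw [h3]
    · rw [h3, neg_mul, ff_neg]
  simp_rw [h1, h]
  exact hC T hT

lemma Gd_of_pos {F : ℝ → ℂ} (hF : Measurable F) {δ θ A a b : ℝ} {α : Fin K → ℝ} (ha : 0 < a)
    (hα : α ∈ Bxx K a b) (hA : 0 ≤ A) (hθ : θ ≤ 1 - δ) (hδ : 0 ≤ 1 - δ)
    (hint : ∀ T : ℝ, 1 ≤ T → IntegrableOn (fun t => ‖F t‖ ^ 2) (Icc 0 T))
    (h : ∀ T : ℝ, 1 ≤ T → ‖∫ t in (1 : ℝ)..T, F t * (dP α t : ℂ)‖ ≤ A * T ^ θ) :
    Gd F δ α := by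
  have hpos : ∀ j, 0 < α j := fun j => lt_of_lt_of_le ha (hα.1 j)
  have i1 := int_ff hF α zero_le_one (hint 1 le_rfl)
  have i2 := int01 hF hpos (hint 1 le_rfl)
  set c : ℂ := (∫ t in (0 : ℝ)..1, F t * ((∏ j, ff (α j * t) : ℝ) : ℂ)) -
    ∫ t in (0 : ℝ)..1, F t * ((∏ j, Mz (α j * t) : ℝ) : ℂ) with hc
  refine ⟨‖c‖ + A, fun T hT => ?_⟩
  simp_rw [fun j => abs_of_pos (hpos j)]
  have hsub : Icc 1 T ⊆ Icc 0 T := Icc_subset_Icc_left zero_le_one
  have i3 : IntervalIntegrable (fun t => F t * ((∏ j, ff (α j * t) : ℝ) : ℂ)) volume 1 T := by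
    have := int_ff hF α (zero_le_one.trans hT) (hint T hT)
    rw [intervalIntegrable_iff_integrableOn_Ioc_of_le (zero_le_one.trans hT)] at this
    rw [intervalIntegrable_iff_integrableOn_Ioc_of_le hT]
    exact this.mono_set (Ioc_subset_Ioc_left zero_le_one)
  have i4 : IntervalIntegrable (fun t => F t * (dP α t : ℂ)) volume 1 T := by
    rw [intervalIntegrable_iff_integrableOn_Ioc_of_le hT]
    exact (int_on hF ha one_pos ((hint T hT).mono_set hsub) hα).1.mono_set Ioc_subset_Icc_self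
  have e0 : ∀ t : ℝ, F t * ((∏ j, Mz (α j * t) : ℝ) : ℂ) =
      F t * ((∏ j, ff (α j * t) : ℝ) : ℂ) - F t * (dP α t : ℂ) := fun t => by
    unfold dP
    push_cast
    ring
  have i5 : IntervalIntegrable (fun t => F t * ((∏ j, Mz (α j * t) : ℝ) : ℂ)) volume 1 T := by
    simp_rw [e0]
    exact i3.sub i4
  have e1 : ∫ t in (1 : ℝ)..T, F t * ((∏ j, Mz (α j * t) : ℝ) : ℂ) =
      (∫ t in (1 : ℝ)..T, F t * ((∏ j, ff (α j * t) : ℝ) : ℂ)) -
        ∫ t in (1 : ℝ)..T, F t * (dP α t : ℂ) := by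
    simp_rw [e0]
    exact intervalIntegral.integral_sub i3 i4
  rw [← intervalIntegral.integral_add_adjacent_intervals i1 i3,
    ← intervalIntegral.integral_add_adjacent_intervals i2 i5, e1]
  have e2 : ∀ x y z w u : ℂ, x + y - (z + (y - w)) = (x - z) + w := by intros; ring
  rw [e2 _ _ _ _ 0, ← hc]
  have hT1 : 1 ≤ T ^ (1 - δ) := Real.one_le_rpow hT hδ
  calc ‖c + ∫ t in (1 : ℝ)..T, F t * (dP α t : ℂ)‖ ≤ ‖c‖ + A * T ^ θ :=
        (norm_add_le _ _).trans (add_le_add le_rfl (h T hT))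
    _ ≤ ‖c‖ * T ^ (1 - δ) + A * T ^ (1 - δ) := by
        refine add_le_add ?_ ?_
        · nlinarith [norm_nonneg c]
        · exact mul_le_mul_of_nonneg_left (Real.rpow_le_rpow_of_exponent_le hT hθ) hA
    _ = (‖c‖ + A) * T ^ (1 - δ) := by ring

theorem t_FIN (h : S_VAR) : S_FIN := by
  obtain ⟨δ₀, hδ₀, hδ₀1, hv⟩ := h
  refine ⟨δ₀ / 20, by positivity, ?_⟩
  intro K F hF hB
  obtain ⟨B, hB⟩ := hB
  have hint : ∀ T : ℝ, 1 ≤ T → IntegrableOn (fun t => ‖F t‖ ^ 2) (Icc 0 T) := fun T hT => (hB T hT).1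
  have hB0 : 0 ≤ B := by
    have h1 := (hB 1 le_rfl).2
    rw [Real.one_rpow, mul_one] at h1
    exact (intervalIntegral.integral_nonneg zero_le_one fun t _ => by positivity).trans h1
  have hN : ∀ P : ℝ, 1 ≤ P → ∫ t in P..(2 * P), ‖F t‖ ^ 2 ≤ (4 * B) * P ^ (1 + δ₀ / 20) := by
    intro P hP
    have hP0 : 0 < P := by linarith
    have h1 := (hB (2 * P) (by linarith)).2
    rw [intervalIntegral.integral_of_le (by linarith)] at h1
    rw [intervalIntegral.integral_of_le (by linarith)]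
    have h3 : ∫ t in Ioc P (2 * P), ‖F t‖ ^ 2 ≤ ∫ t in Ioc 0 (2 * P), ‖F t‖ ^ 2 :=
      setIntegral_mono_set ((hint (2 * P) (by linarith)).mono_set Ioc_subset_Icc_self)
        (ae_of_all _ fun t => by positivity) (Ioc_subset_Ioc_left hP0.le).eventuallyLE
    refine (h3.trans h1).trans ?_
    rw [Real.mul_rpow (by norm_num) hP0.le]
    have h4 : (2 : ℝ) ^ (1 + δ₀ / 20) ≤ 2 ^ (2 : ℝ) :=
      Real.rpow_le_rpow_of_exponent_le (by norm_num) (by linarith)
    have h5 : (2 : ℝ) ^ (2 : ℝ) = 4 := by norm_num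
    rw [h5] at h4
    have h6 : 0 ≤ P ^ (1 + δ₀ / 20) := by positivity
    calc B * (2 ^ (1 + δ₀ / 20) * P ^ (1 + δ₀ / 20)) ≤ B * (4 * P ^ (1 + δ₀ / 20)) := by
          refine mul_le_mul_of_nonneg_left ?_ hB0
          exact mul_le_mul_of_nonneg_right h4 h6
      _ = 4 * B * P ^ (1 + δ₀ / 20) := by ring
  -- boxes
  have hbox : ∀ a b : ℝ, 0 < a → a < b → ∀ᵐ α : Fin K → ℝ, α ∈ Bxx K a b → Gd F (δ₀ / 20) α := by
    intro a b ha hab
    obtain ⟨C, hC, v1, v2⟩ := hv K a b (δ₀ / 100) ha hab (by positivity)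
    have h1 := ae_box (K := K) hF (B := 4 * B) (ε := δ₀ / 100) (δ := δ₀ / 20) (κ := δ₀ / 100)
      (δ₀ := δ₀) (a := a) (b := b) ha hC (by positivity) (by linarith) hδ₀ (by positivity)
      (by positivity)
      (fun P hP => (hint (2 * P) (by linarith)).mono_set (Icc_subset_Icc_left (by linarith)))
      hN v1 (fun P S hP hPS hS => v2 F hF P S hP hPS hS
        ((hint (2 * P) (by linarith)).mono_set (Icc_subset_Icc_left (by linarith))))
    have h2 := (ae_restrict_iff' (measurableSet_Icc : MeasurableSet (Bxx K a b))).1 h1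
    filter_upwards [h2] with α h3 hα
    obtain ⟨c, hc, h4⟩ := h3 hα
    obtain ⟨A, hA, h5⟩ := sum_up (g := fun t => F t * (dP α t : ℂ)) (c := c)
      (θ := (2 - δ₀ + δ₀ / 100 + δ₀ / 20 + δ₀ / 100) / 2) hc (by linarith)
      (fun T hT => (int_on hF ha one_pos
        ((hint T hT).mono_set (Icc_subset_Icc_left zero_le_one)) hα).1)
      (fun i T hT => by
        have := h4 i T hT
        rwa [show 2 * ((2 - δ₀ + δ₀ / 100 + δ₀ / 20 + δ₀ / 100) / 2) =
          2 - δ₀ + δ₀ / 100 + δ₀ / 20 + δ₀ / 100 by ring])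
    exact Gd_of_pos hF ha hα hA (by linarith) (by linarith) hint h5
  -- positive orthant
  have hpos : ∀ᵐ α : Fin K → ℝ, (∀ j, 0 < α j) → Gd F (δ₀ / 20) α := by
    have h1 : ∀ᵐ α : Fin K → ℝ, ∀ n : ℕ,
        α ∈ Bxx K (1 / ((n : ℝ) + 2)) ((n : ℝ) + 2) → Gd F (δ₀ / 20) α := by
      rw [ae_all_iff]
      intro n
      have hn : (0 : ℝ) ≤ n := Nat.cast_nonneg n
      refine hbox _ _ (by positivity) ?_
      rw [div_lt_iff₀ (by positivity)]
      nlinarith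
    filter_upwards [h1] with α h2 hα
    obtain ⟨n1, hn1⟩ : ∃ n : ℕ, ∀ j, α j ≤ n := by
      obtain ⟨n, hn⟩ := exists_nat_ge (∑ j, α j)
      exact ⟨n, fun j => (Finset.single_le_sum (f := α) (fun i _ => (hα i).le)
        (Finset.mem_univ j)).trans hn⟩
    obtain ⟨n2, hn2⟩ : ∃ n : ℕ, ∀ j, (α j)⁻¹ ≤ n := by
      obtain ⟨n, hn⟩ := exists_nat_ge (∑ j, (α j)⁻¹)
      exact ⟨n, fun j => (Finset.single_le_sum (f := fun j => (α j)⁻¹)
        (fun i _ => (inv_pos.2 (hα i)).le) (Finset.mem_univ j)).trans hn⟩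
    refine h2 (n1 + n2) ⟨fun j => ?_, fun j => ?_⟩
    · have h3 := hn2 j
      have h4 := hα j
      push_cast
      rw [div_le_iff₀ (by positivity)]
      have h5 : α j * (α j)⁻¹ ≤ α j * n2 := mul_le_mul_of_nonneg_left h3 h4.le
      rw [mul_inv_cancel₀ h4.ne'] at h5
      nlinarith [Nat.cast_nonneg (α := ℝ) n1, mul_nonneg h4.le (Nat.cast_nonneg (α := ℝ) n1)]
    · have h3 := hn1 j
      push_cast
      linarith [Nat.cast_nonneg (α := ℝ) n2]
  -- all orthants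
  have hall : ∀ᵐ α : Fin K → ℝ, ∀ s : Fin K → Bool,
      (∀ j, 0 < (if s j then α j else -α j)) → Gd F (δ₀ / 20) fun j => if s j then α j else -α j := by
    rw [ae_all_iff]
    intro s
    have hmp : MeasurePreserving (fun (α : Fin K → ℝ) (j : Fin K) =>
        (fun x : ℝ => if s j then x else -x) (α j)) := by
      refine volume_preserving_pi (f := fun j (x : ℝ) => if s j then x else -x) fun j => ?_
      by_cases hs : s j
      · simp only [hs, if_true]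
        exact MeasurePreserving.id _
      · simp only [hs]
        exact Measure.measurePreserving_neg _
    exact hmp.quasiMeasurePreserving.ae hpos
  have hne : ∀ᵐ α : Fin K → ℝ, ∀ j, α j ≠ 0 := by
    rw [ae_all_iff]
    intro j
    exact Measure.ae_eval_ne (μ := fun _ : Fin K => (volume : Measure ℝ)) j 0
  filter_upwards [hall, hne] with α h1 h2
  have h3 := h1 (fun j => decide (0 < α j)) (fun j => by
    by_cases hj : 0 < α j
    · simp [hj]
    · simp only [hj, decide_false]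
      rcases lt_or_gt_of_ne (h2 j) with h4 | h4
      · simpa using h4
      · exact absurd h4 hj)
  refine Gd_abs (fun j => ?_) h3
  by_cases hj : 0 < α j
  · simp [hj]
  · simp [hj]

end

end Pool.Agent.K1H19.DLV2
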